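import Pool.Agent.Helper80.LF.Ent

/-! Entropy form of the count: a point at which a polynomial of bounded degree given the base is small
with respect to its gradient has at most `m (s - c) + 2 (m + 1) e` digits. -/

set_option autoImplicit false

namespace Pool.Agent.Helper80.LF

open Finset Filter Topology Pool.Agent.Helper69.RK Pool.Agent.Helper31.EC MvPolynomial

noncomputable section

variable {S : Sp}

theorem Sub_pow {K : ℕ → ℝ} (hK : S.Sub K) (N : ℕ) : S.Sub (fun k => K k ^ N) := by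
  induction N with
  | zero => simpa using S.Sub_const zero_le_one
  | succ N ih =>
    have h1 := ih.mul hK
    simpa [pow_succ] using h1

open Classical in
/-- the digits of a point near a hypersurface given by one of finitely many polynomials known to `B` -/
theorem ul_rt_leaf {m J D : ℕ} (y : S.VV (m + 1)) (s c e : ℝ) (hcs : c ≤ s) (he : 0 ≤ e)
    (B : ∀ k, Setoid (S.F k).Ω) (q : ∀ k, (S.F k).Ω → Fin J → MvPolynomial (Fin (m + 1)) ℝ)
    (x0 : ∀ k, (S.F k).Ω → Fin (m + 1) → ℝ)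
    (hq : ∀ᶠ k in UF, ∀ ω ω', (S.F k).μ ω ≠ 0 → (S.F k).μ ω' ≠ 0 → B k ω' ω → (S.F k).Z ω' ω →
      q k ω' = q k ω ∧ x0 k ω' = x0 k ω)
    (hD : ∀ k ω j, (q k ω j).totalDegree ≤ D)
    (E : ∀ k, (S.F k).Ω → Prop) (hE : Sp.Typ E) (K : ℕ → ℝ) (hK : S.Sub K)
    (hb : ∀ᶠ k in UF, ∀ ω, (S.F k).μ ω ≠ 0 → E k ω →
      (∀ i, |y.v k ω i - x0 k ω i| ≤ K k * S.dl c k) ∧
      ∃ j i, |eval (y.v k ω) (q k ω j)| ≤ K k * 2 ^ (e * (S.F k).n) ∧
        (2 : ℝ) ^ ((s - e) * (S.F k).n) ≤ K k * |eval (y.v k ω) (pderiv i (q k ω j))|) :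
    ∃ f : ℕ → ℝ, Tendsto f UF (𝓝 (m * (s - c) + 2 * (m + 1) * e)) ∧
      ∀ᶠ k in UF, S.rt (fun k => Setoid.ker (y.cellv s k)) B k ≤ f k := by
  obtain ⟨C, hC0, hC⟩ := count_family m D
  have hK1 : S.Sub (fun k => K k + 1) := hK.add (S.Sub_const zero_le_one)
  have hK' : S.Sub (fun k => (J * C * 2) * (K k + 1) ^ (2 * (m + 1))) :=
    (S.Sub_const (show (0 : ℝ) ≤ J * C * 2 by positivity)).mul (Sub_pow hK1 _)
  refine ul_rt_count_le y s _ B E hE _ hK' (by have := sub_nonneg.2 hcs; positivity) ?_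
  filter_upwards [hq, hb, hK.1] with k hqk hbk hKk ω hω hEω
  have hn := (S.F k).pos
  refine ⟨(univ.filter (fun ω' => (S.F k).μ ω' ≠ 0 ∧ E k ω' ∧ B k ω' ω ∧ (S.F k).Z ω' ω)).image
    (y.cellv s k), ?_, ?_⟩
  swap
  · intro ω' h1 h2 h3 h4
    exact mem_image_of_mem _ (mem_filter.2 ⟨mem_univ _, h1, h2, h3, h4⟩)
  set n := (S.F k).n with hnn
  set L : ℝ := K k + 1 with hL
  have hL1 : 1 ≤ L := by rw [hL]; linarith
  have hL2 : 1 ≤ L ^ 2 := one_le_pow₀ hL1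
  have hKL : K k ≤ L := by rw [hL]; linarith
  set δ : ℝ := S.dl s k with hδ
  set r : ℝ := L ^ 2 * 2 ^ ((2 * e - s) * n) with hr
  set ρ : ℝ := L ^ 2 * 2 ^ ((max (-c) (2 * e - s)) * n) with hρ
  have hδ0 : 0 < δ := S.dl_pos s k
  have hδe : δ = 2 ^ (-s * n) := by rw [hδ]; unfold Sp.dl; rw [neg_mul]
  have h2 : (1 : ℝ) ≤ 2 := by norm_num
  have hpow : ∀ a b : ℝ, a ≤ b → (2 : ℝ) ^ (a * n) ≤ 2 ^ (b * n) := fun a b h =>
    Real.rpow_le_rpow_of_exponent_le h2 (mul_le_mul_of_nonneg_right h hn.le)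
  have hδρ : δ ≤ ρ := by
    rw [hδe, hρ]
    have e1 := hpow (-s) (max (-c) (2 * e - s)) (le_trans (by linarith) (le_max_right _ _))
    have e2 : (0 : ℝ) < 2 ^ ((max (-c) (2 * e - s)) * n) := by positivity
    nlinarith
  have hrρ : r ≤ ρ := by
    rw [hr, hρ]
    exact mul_le_mul_of_nonneg_left (hpow _ _ (le_max_right _ _)) (by positivity)
  have hcard := hC J (q k ω) (hD k ω) (x0 k ω) ρ r δ hδ0 hδρ (by positivity) hrρ
    ((univ.filter (fun ω' => (S.F k).μ ω' ≠ 0 ∧ E k ω' ∧ B k ω' ω ∧ (S.F k).Z ω' ω)).image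
      (y.cellv s k)) (by
    intro c' hc'
    obtain ⟨ω', hω', rfl⟩ := mem_image.1 hc'
    obtain ⟨_, h1, h3, h4, h5⟩ := mem_filter.1 hω'
    obtain ⟨g1, g2⟩ := hqk ω ω' hω h1 h4 h5
    obtain ⟨b1, j, i, b2, b3⟩ := hbk ω' h1 h3
    rw [g2] at b1
    rw [g1] at b2 b3
    refine ⟨y.v k ω', fun i => ?_, fun i => rfl, j, i, ?_, ?_⟩
    · refine (b1 i).trans ?_
      have e1 : S.dl c k = 2 ^ (-c * n) := by unfold Sp.dl; rw [neg_mul]
      rw [e1, hρ]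
      have e2 := hpow (-c) (max (-c) (2 * e - s)) (le_max_left _ _)
      have e3 : K k ≤ L ^ 2 := by nlinarith
      exact mul_le_mul e3 e2 (by positivity) (by positivity)
    · intro h0
      rw [h0, abs_zero, mul_zero] at b3
      have : (0 : ℝ) < 2 ^ ((s - e) * n) := by positivity
      linarith
    · have e1 : (2 : ℝ) ^ ((s - e) * n) ≤ L * |eval (y.v k ω') (pderiv i (q k ω j))| :=
        b3.trans (mul_le_mul_of_nonneg_right hKL (abs_nonneg _))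
      have e2 : (2 : ℝ) ^ (e * n) = 2 ^ ((2 * e - s) * n) * 2 ^ ((s - e) * n) := by
        rw [← Real.rpow_add (by norm_num : (0 : ℝ) < 2)]
        congr 1; ring
      calc |eval (y.v k ω') (q k ω j)| ≤ K k * 2 ^ (e * n) := b2
        _ ≤ L * 2 ^ (e * n) := mul_le_mul_of_nonneg_right hKL (by positivity)
        _ = L * 2 ^ ((2 * e - s) * n) * 2 ^ ((s - e) * n) := by rw [e2]; ring
        _ ≤ L * 2 ^ ((2 * e - s) * n) * (L * |eval (y.v k ω') (pderiv i (q k ω j))|) :=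
            mul_le_mul_of_nonneg_left e1 (by positivity)
        _ = r * |eval (y.v k ω') (pderiv i (q k ω j))| := by rw [hr]; ring)
  refine hcard.trans ?_
  have f1 : ρ / δ ≤ L ^ 2 * 2 ^ ((s - c + 2 * e) * n) := by
    rw [div_le_iff₀ hδ0, hδe, mul_assoc, ← Real.rpow_add (by norm_num : (0 : ℝ) < 2), hρ]
    refine mul_le_mul_of_nonneg_left ?_ (by positivity)
    have e1 : (s - c + 2 * e) * n + -s * n = (2 * e - c) * n := by ring
    rw [e1]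
    refine hpow _ _ (max_le (by linarith) (by linarith))
  have f2 : 1 + r / δ ≤ 2 * (L ^ 2 * 2 ^ (2 * e * n)) := by
    have e1 : r / δ = L ^ 2 * 2 ^ (2 * e * n) := by
      rw [div_eq_iff hδ0.ne', hδe, mul_assoc, ← Real.rpow_add (by norm_num : (0 : ℝ) < 2), hr]
      congr 2; ring
    have e2 : (1 : ℝ) ≤ 2 ^ (2 * e * n) := Real.one_le_rpow h2 (by positivity)
    rw [e1]
    nlinarith
  have hρδ : 0 ≤ ρ / δ := by positivity
  have f3 : (ρ / δ) ^ m ≤ (L ^ 2 * 2 ^ ((s - c + 2 * e) * n)) ^ m := pow_le_pow_left₀ hρδ f1 m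
  have f4 : (L ^ 2 * 2 ^ ((s - c + 2 * e) * n)) ^ m * (2 * (L ^ 2 * 2 ^ (2 * e * n)))
      = 2 * L ^ (2 * (m + 1)) * 2 ^ ((m * (s - c) + 2 * (m + 1) * e) * n) := by
    have e1 : (2 : ℝ) ^ ((m * (s - c) + 2 * (m + 1) * e) * n)
        = ((2 : ℝ) ^ ((s - c + 2 * e) * n)) ^ m * 2 ^ (2 * e * n) := by
      rw [← Real.rpow_natCast, ← Real.rpow_mul (by norm_num), ← Real.rpow_add (by norm_num : (0 : ℝ) < 2)]
      congr 1; ring
    have e2 : L ^ (2 * (m + 1)) = L ^ (2 * m) * L ^ 2 := by ring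
    rw [mul_pow, ← pow_mul, e1, e2]
    ring
  calc (J : ℝ) * (C * ((ρ / δ) ^ m * (1 + r / δ)))
      ≤ J * (C * ((L ^ 2 * 2 ^ ((s - c + 2 * e) * n)) ^ m * (2 * (L ^ 2 * 2 ^ (2 * e * n))))) := by
        refine mul_le_mul_of_nonneg_left (mul_le_mul_of_nonneg_left ?_ hC0) (Nat.cast_nonneg J)
        exact mul_le_mul f3 f2 (by positivity) (by positivity)
    _ = (J * C * 2) * L ^ (2 * (m + 1)) * 2 ^ ((m * (s - c) + 2 * (m + 1) * e) * n) := by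
        rw [f4]; ring

open Classical in
/-- the same for an information `A` -/
theorem h_leaf {m J D : ℕ} (y : S.VV (m + 1)) (s c e : ℝ) (hcs : c ≤ s) (he : 0 ≤ e)
    (A : S.Inf) (q : ∀ k, (S.F k).Ω → Fin J → MvPolynomial (Fin (m + 1)) ℝ)
    (x0 : ∀ k, (S.F k).Ω → Fin (m + 1) → ℝ)
    (hq : ∀ᶠ k in UF, ∀ ω ω', (S.F k).μ ω ≠ 0 → (S.F k).μ ω' ≠ 0 → A.1 k ω' ω → (S.F k).Z ω' ω →
      q k ω' = q k ω ∧ x0 k ω' = x0 k ω)
    (hD : ∀ k ω j, (q k ω j).totalDegree ≤ D)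
    (E : ∀ k, (S.F k).Ω → Prop) (hE : Sp.Typ E) (K : ℕ → ℝ) (hK : S.Sub K)
    (hb : ∀ᶠ k in UF, ∀ ω, (S.F k).μ ω ≠ 0 → E k ω →
      (∀ i, |y.v k ω i - x0 k ω i| ≤ K k * S.dl c k) ∧
      ∃ j i, |eval (y.v k ω) (q k ω j)| ≤ K k * 2 ^ (e * (S.F k).n) ∧
        (2 : ℝ) ^ ((s - e) * (S.F k).n) ≤ K k * |eval (y.v k ω) (pderiv i (q k ω j))|) :
    h (y.dg s) (Sp.cl A) ≤ m * (s - c) + 2 * (m + 1) * e := by
  obtain ⟨f, hf, hf1⟩ := ul_rt_leaf y s c e hcs he A.1 q x0 hq hD E hE K hK hb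
  unfold Sp.VV.dg
  rw [Sp.io_eq (y.bdd s), Sp.h_cl]
  rw [← ul_eq hf]
  exact ul_mono (Sp.UB_rt _ _) (UB_of_tendsto hf) hf1

end

end Pool.Agent.Helper80.LF
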