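import Pool.Agent.Helper80.LF.Zero

/-! Restriction of a polynomial in several variables to coordinate lines. -/

set_option autoImplicit false

namespace Pool.Agent.Helper80.LF

open MvPolynomial

variable {N : ℕ}

/-- restriction to the line through `y` in the coordinate direction `i` -/
noncomputable def rl (y : Fin N → ℝ) (i : Fin N) (q : MvPolynomial (Fin N) ℝ) : Polynomial ℝ :=
  aeval (fun k => Polynomial.C (y k) + if k = i then Polynomial.X else 0) q

/-- the point of the line -/
def lp (y : Fin N → ℝ) (i : Fin N) (s : ℝ) : Fin N → ℝ := fun k => y k + if k = i then s else 0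

theorem eval_rl (y : Fin N → ℝ) (i : Fin N) (q : MvPolynomial (Fin N) ℝ) (s : ℝ) :
    (rl y i q).eval s = eval (lp y i s) q := by
  unfold rl
  induction q using MvPolynomial.induction_on with
  | C a => simp
  | add p q hp hq => rw [map_add, Polynomial.eval_add, hp, hq, map_add]
  | mul_X p k hp =>
    rw [map_mul, Polynomial.eval_mul, hp, map_mul, eval_X, aeval_X]
    congr 1
    unfold lp
    split_ifs <;> simp

theorem deriv_rl (y : Fin N → ℝ) (i : Fin N) (q : MvPolynomial (Fin N) ℝ) :
    Polynomial.derivative (rl y i q) = rl y i (pderiv i q) := by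
  unfold rl
  induction q using MvPolynomial.induction_on with
  | C a => simp
  | add p q hp hq => rw [map_add, map_add, hp, hq, map_add, map_add]
  | mul_X p k hp =>
    rw [map_mul, Polynomial.derivative_mul, hp, Derivation.leibniz, map_add, smul_eq_mul,
      smul_eq_mul, map_mul, map_mul, aeval_X, pderiv_X]
    by_cases h : k = i
    · subst h
      simp only [if_true, Pi.single_eq_same, map_one, Polynomial.derivative_add,
        Polynomial.derivative_C, Polynomial.derivative_X, zero_add]
      ring
    · have h' : i ≠ k := fun h1 => h h1.symm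
      simp only [h, if_false, Pi.single_eq_of_ne h, map_zero, Polynomial.derivative_C, add_zero]
      ring

theorem iter_rl (y : Fin N → ℝ) (i : Fin N) (q : MvPolynomial (Fin N) ℝ) (j : ℕ) :
    Polynomial.derivative^[j] (rl y i q) = rl y i ((pderiv i)^[j] q) := by
  induction j with
  | zero => rfl
  | succ j hj => rw [Function.iterate_succ_apply', hj, deriv_rl, Function.iterate_succ_apply']

theorem rl_deg (y : Fin N → ℝ) (i : Fin N) (q : MvPolynomial (Fin N) ℝ) :
    (rl y i q).natDegree ≤ q.totalDegree := by
  unfold rl
  refine (aeval_natDegree_le (m := q.totalDegree) (n := 1) q le_rfl _ fun k => ?_).trans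
    (le_of_eq (mul_one _))
  split_ifs
  · exact (Polynomial.natDegree_add_le _ _).trans (by simp)
  · rw [add_zero]; simp

/-- all derivatives in coordinate directions -/
noncomputable def dj (q : MvPolynomial (Fin N) ℝ) (i : Fin N) (j : ℕ) : MvPolynomial (Fin N) ℝ :=
  (pderiv i)^[j] q

theorem pderiv_deg (q : MvPolynomial (Fin N) ℝ) (i : Fin N) :
    (pderiv i q).totalDegree ≤ q.totalDegree := by
  classical
  rw [q.as_sum, map_sum]
  refine totalDegree_finsetSum_le fun s hs => ?_
  rw [pderiv_monomial]
  have h1 : (monomial (s - Finsupp.single i 1) (coeff s q * (s i : ℝ))).totalDegree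
      ≤ (s - Finsupp.single i 1).degree := by
    refine (totalDegree_monomial_le _ _).trans (le_of_eq ?_)
    rfl
  refine h1.trans ?_
  rw [← q.as_sum]
  have h2 : s.degree ≤ q.totalDegree := le_totalDegree hs
  refine le_trans ?_ h2
  exact Finsupp.degree_mono tsub_le_self

theorem dj_deg (q : MvPolynomial (Fin N) ℝ) (i : Fin N) (j : ℕ) :
    (dj q i j).totalDegree ≤ q.totalDegree := by
  unfold dj
  induction j with
  | zero => exact le_rfl
  | succ j hj =>
    rw [Function.iterate_succ_apply']
    exact (pderiv_deg _ _).trans hj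

open Classical in
/-- the product of the nonzero derivatives of order at most `D` in coordinate directions -/
noncomputable def FF (D : ℕ) (q : MvPolynomial (Fin N) ℝ) : MvPolynomial (Fin N) ℝ :=
  ∏ i : Fin N, ∏ j ∈ Finset.range (D + 1), if dj q i j = 0 then 1 else dj q i j

theorem FF_ne (D : ℕ) (q : MvPolynomial (Fin N) ℝ) : FF D q ≠ 0 := by
  classical
  unfold FF
  refine Finset.prod_ne_zero_iff.2 fun i _ => Finset.prod_ne_zero_iff.2 fun j _ => ?_
  split_ifs with h
  · exact one_ne_zero
  · exact h

theorem FF_deg (D : ℕ) (q : MvPolynomial (Fin N) ℝ) (hq : q.totalDegree ≤ D) :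
    (FF D q).totalDegree ≤ N * ((D + 1) * D) := by
  classical
  unfold FF
  refine (totalDegree_finsetProd _ _).trans ?_
  have h1 : ∀ i : Fin N, (∏ j ∈ Finset.range (D + 1), if dj q i j = 0 then 1 else dj q i j).totalDegree
      ≤ (D + 1) * D := by
    intro i
    refine (totalDegree_finsetProd _ _).trans ?_
    refine (Finset.sum_le_card_nsmul _ _ D fun j _ => ?_).trans ?_
    · split_ifs
      · simp
      · exact (dj_deg q i j).trans hq
    · simp
  refine (Finset.sum_le_card_nsmul _ _ _ fun i _ => h1 i).trans ?_
  simp

/-- a point where `q` is small with respect to its gradient is close to a zero of `FF D q` -/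
theorem near_zero (D : ℕ) (q : MvPolynomial (Fin N) ℝ) (hq : q.totalDegree ≤ D) (y : Fin N → ℝ)
    (i : Fin N) (r : ℝ) (hr : 0 ≤ r) (h1 : eval y (pderiv i q) ≠ 0)
    (h2 : |eval y q| ≤ r * |eval y (pderiv i q)|) :
    ∃ z : Fin N → ℝ, eval z (FF D q) = 0 ∧ ∀ k, |y k - z k| ≤ 6 ^ D * r := by
  classical
  have e0 : ∀ p : MvPolynomial (Fin N) ℝ, (rl y i p).eval 0 = eval y p := by
    intro p
    rw [eval_rl]
    congr 1
    congr 1
    funext k
    unfold lp
    split_ifs <;> simp
  set e := (rl y i q).natDegree with he
  have heD : e ≤ D := (rl_deg y i q).trans hq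
  obtain ⟨j, hj, s, hs, hs0⟩ := realzero e (rl y i q) le_rfl 0 r hr
    (by rw [deriv_rl, e0]; exact h1) (by rw [deriv_rl, e0, e0]; exact h2)
  refine ⟨lp y i s, ?_, ?_⟩
  · unfold FF
    rw [map_prod]
    refine Finset.prod_eq_zero (Finset.mem_univ i) ?_
    rw [map_prod]
    refine Finset.prod_eq_zero (Finset.mem_range.2 (show j < D + 1 by omega)) ?_
    rw [iter_rl] at hs0
    have hne : dj q i j ≠ 0 := by
      intro h0
      have h3 : Polynomial.derivative^[j] (rl y i q) = 0 := by
        rw [iter_rl]
        unfold dj at h0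
        rw [h0]
        unfold rl
        rw [map_zero]
      have h4 := Polynomial.coeff_iterate_derivative (p := rl y i q) (k := j) (m := e - j)
      rw [h3, Polynomial.coeff_zero, Nat.sub_add_cancel hj.le] at h4
      have h5 : (rl y i q).coeff e ≠ 0 := by
        rw [he]
        refine Polynomial.leadingCoeff_ne_zero.2 ?_
        intro h6
        rw [h6, Polynomial.natDegree_zero] at he
        omega
      have h6 : (e.descFactorial j) ≠ 0 := by
        rw [Ne, Nat.descFactorial_eq_zero_iff_lt]
        omega
      have h7 : (e.descFactorial j) • (rl y i q).coeff e ≠ 0 := by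
        rw [nsmul_eq_mul]
        exact mul_ne_zero (by exact_mod_cast h6) h5
      exact h7 h4.symm
    rw [if_neg hne]
    unfold dj
    rw [← eval_rl]
    exact hs0
  · intro k
    unfold lp
    have h6 : (6 : ℝ) ^ e ≤ 6 ^ D := pow_le_pow_right₀ (by norm_num) heD
    rw [sub_zero] at hs
    have h7 : |s| ≤ 6 ^ D * r := hs.trans (mul_le_mul_of_nonneg_right h6 hr)
    split_ifs
    · rw [show y k - (y k + s) = -s by ring, abs_neg]
      exact h7
    · rw [add_zero, sub_self, abs_zero]
      exact (abs_nonneg s).trans h7

end Pool.Agent.Helper80.LF
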