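import Pool.Agent.Helper59.EN.Vol
import Pool.Agent.Helper80.LF.Line

/-! The number of cubes in which a polynomial is small with respect to its gradient. -/

set_option autoImplicit false

namespace Pool.Agent.Helper80.LF

open MvPolynomial MeasureTheory Set
open scoped ENNReal
open Pool.Agent.Helper59

/-- the half open cube of side `δ` -/
def Q {N : ℕ} (δ : ℝ) (c : Fin N → ℤ) : Set (Fin N → ℝ) :=
  Set.pi univ fun i => Ico (δ * c i) (δ * (c i + 1))

theorem mem_Q {N : ℕ} {δ : ℝ} (hδ : 0 < δ) (c : Fin N → ℤ) (x : Fin N → ℝ) :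
    x ∈ Q δ c ↔ ∀ i, ⌊x i / δ⌋ = c i := by
  unfold Q
  simp only [mem_pi, mem_univ, true_implies, mem_Ico]
  refine forall_congr' fun i => ?_
  rw [Int.floor_eq_iff, le_div_iff₀ hδ, div_lt_iff₀ hδ, mul_comm δ, mul_comm δ]

theorem Q_vol {N : ℕ} {δ : ℝ} (hδ : 0 < δ) (c : Fin N → ℤ) :
    volume (Q δ c) = ENNReal.ofReal (δ ^ N) := by
  unfold Q
  rw [Real.volume_pi_Ico]
  have h1 : ∀ i : Fin N, δ * ((c i : ℝ) + 1) - δ * c i = δ := fun i => by ring
  simp only [h1]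
  rw [Finset.prod_const, Finset.card_univ, Fintype.card_fin, ENNReal.ofReal_pow hδ.le]

theorem Q_disj {N : ℕ} {δ : ℝ} (hδ : 0 < δ) (c c' : Fin N → ℤ) (h : c ≠ c') :
    Disjoint (Q δ c) (Q δ c') := by
  rw [Set.disjoint_left]
  intro x h1 h2
  rw [mem_Q hδ] at h1 h2
  exact h (funext fun i => (h1 i).symm.trans (h2 i))

/-- COUNT: the number of cubes of side `δ` in a box of size `ρ` that contain a point at which
`|q| ≤ r |∂ q|` is at most `C (ρ / δ) ^ N (1 + r / δ)` in `R ^ (N + 1)` -/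
theorem count (N D : ℕ) : ∃ C : ℝ, 0 ≤ C ∧ ∀ q : MvPolynomial (Fin (N + 1)) ℝ, q.totalDegree ≤ D →
    ∀ (x0 : Fin (N + 1) → ℝ) (ρ r δ : ℝ), 0 < δ → δ ≤ ρ → 0 ≤ r → r ≤ ρ →
    ∀ I : Finset (Fin (N + 1) → ℤ),
    (∀ c ∈ I, ∃ z : Fin (N + 1) → ℝ, (∀ i, |z i - x0 i| ≤ ρ) ∧ (∀ i, ⌊z i / δ⌋ = c i) ∧
      ∃ i, eval z (pderiv i q) ≠ 0 ∧ |eval z q| ≤ r * |eval z (pderiv i q)|) →
    (I.card : ℝ) ≤ C * ((ρ / δ) ^ N * (1 + r / δ)) := by
  classical
  obtain ⟨C, hC⟩ := EN.tube N ((N + 1) * ((D + 1) * D))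
  refine ⟨C * ((6 ^ D + 2) ^ N * 6 ^ D), by positivity, ?_⟩
  intro q hq x0 ρ r δ hδ hδρ hr hrρ I hI
  have hρ : 0 < ρ := hδ.trans_le hδρ
  have h6 : (1 : ℝ) ≤ 6 ^ D := one_le_pow₀ (by norm_num)
  set F := FF D q with hF
  set G : MvPolynomial (Fin (N + 1)) ℝ := PWE.aff x0 1 F with hG
  have hGe : ∀ x, eval x G = eval (x0 + x) F := by
    intro x
    rw [hG, PWE.eval_aff, one_mul]
  have hG0 : G ≠ 0 := by
    intro h
    apply FF_ne D q
    apply MvPolynomial.funext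
    intro z
    have h1 := hGe (z - x0)
    rw [h] at h1
    have h2 : x0 + (z - x0) = z := by abel
    rw [h2] at h1
    rw [← hF, ← h1]
    simp
  have hGd : G.totalDegree ≤ (N + 1) * ((D + 1) * D) := (PWE.tdeg_aff _ _ _).trans (FF_deg D q hq)
  set ρ' : ℝ := (6 ^ D + 2) * ρ with hρ'
  set r' : ℝ := 6 ^ D * r + δ with hr'
  have hr'0 : 0 < r' := by positivity
  have hr'ρ : r' ≤ ρ' := by
    rw [hr', hρ']
    nlinarith
  have hvol := hC ρ' r' hr'0 hr'ρ G hG0 hGd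
  have hsub : (⋃ c ∈ I, Q δ c) ⊆ (fun x => x + (-x0)) ⁻¹' (EN.Tb G ρ' r') := by
    intro x hx
    simp only [mem_iUnion, exists_prop] at hx
    obtain ⟨c, hc, hxc⟩ := hx
    obtain ⟨z, hz1, hz2, i, hz3, hz4⟩ := hI c hc
    obtain ⟨w, hw, hw2⟩ := near_zero D q hq z i r hr hz3 hz4
    rw [mem_Q hδ] at hxc
    have hxz : ∀ k, |x k - z k| ≤ δ := by
      intro k
      have h1 : ⌊x k / δ⌋ = ⌊z k / δ⌋ := (hxc k).trans (hz2 k).symm
      have h2 := Int.abs_sub_lt_one_of_floor_eq_floor h1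
      rw [← sub_div, abs_div, abs_of_pos hδ, div_lt_one hδ] at h2
      exact h2.le
    refine ⟨fun k => ?_, w - x0, ?_, fun k => ?_⟩
    · have h3 := hxz k
      have h4 := hz1 k
      have h5 : |(x + -x0) k| ≤ |x k - z k| + |z k - x0 k| := by
        have : (x + -x0) k = (x k - z k) + (z k - x0 k) := by
          simp only [Pi.add_apply, Pi.neg_apply]; ring
        rw [this]
        exact abs_add_le _ _
      rw [hρ']
      nlinarith
    · rw [hGe]
      have h2 : x0 + (w - x0) = w := by abel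
      rw [h2]
      exact hw
    · have h3 := hxz k
      have h4 := hw2 k
      have h5 : |(x + -x0) k - (w - x0) k| ≤ |x k - z k| + |z k - w k| := by
        have : (x + -x0) k - (w - x0) k = (x k - z k) + (z k - w k) := by
          simp only [Pi.add_apply, Pi.neg_apply, Pi.sub_apply]; ring
        rw [this]
        exact abs_add_le _ _
      rw [hr']
      linarith
  have h1 : volume (⋃ c ∈ I, Q δ c) = ENNReal.ofReal (I.card * δ ^ (N + 1)) := by
    rw [measure_biUnion_finset]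
    · simp only [Q_vol hδ]
      rw [Finset.sum_const, nsmul_eq_mul, ENNReal.ofReal_mul (by positivity),
        ENNReal.ofReal_natCast]
    · intro c _ c' _ h
      exact Q_disj hδ c c' h
    · intro c _
      unfold Q
      exact MeasurableSet.univ_pi fun i => measurableSet_Ico
  have h2 : volume (⋃ c ∈ I, Q δ c) ≤ ENNReal.ofReal (C * (ρ' ^ N * r')) := by
    refine (measure_mono hsub).trans ?_
    rw [measure_preimage_add_right]
    exact hvol
  rw [h1] at h2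
  have h3 : (I.card : ℝ) * δ ^ (N + 1) ≤ C * (ρ' ^ N * r') := by
    rwa [ENNReal.ofReal_le_ofReal_iff (by positivity)] at h2
  have h4 : r' ≤ 6 ^ D * (δ * (1 + r / δ)) := by
    have e1 : δ * (1 + r / δ) = δ + r := by field_simp
    rw [e1, hr']
    nlinarith
  have h5 : (I.card : ℝ) * δ ^ (N + 1) ≤ C * ((6 ^ D + 2) ^ N * 6 ^ D) *
      ((ρ / δ) ^ N * (1 + r / δ)) * δ ^ (N + 1) := by
    refine h3.trans ?_
    have e2 : C * ((6 ^ D + 2) ^ N * 6 ^ D) * ((ρ / δ) ^ N * (1 + r / δ)) * δ ^ (N + 1)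
        = C * (ρ' ^ N * (6 ^ D * (δ * (1 + r / δ)))) := by
      rw [hρ', mul_pow, div_pow]
      have : δ ^ N ≠ 0 := by positivity
      field_simp
      ring
    rw [e2]
    refine mul_le_mul_of_nonneg_left (mul_le_mul_of_nonneg_left h4 (by positivity))
      (Nat.cast_nonneg C)
  exact le_of_mul_le_mul_right h5 (by positivity)

/-- COUNT for finite families of polynomials -/
theorem count_family (N D : ℕ) : ∃ C : ℝ, 0 ≤ C ∧ ∀ (J : ℕ)
    (q : Fin J → MvPolynomial (Fin (N + 1)) ℝ), (∀ k, (q k).totalDegree ≤ D) →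
    ∀ (x0 : Fin (N + 1) → ℝ) (ρ r δ : ℝ), 0 < δ → δ ≤ ρ → 0 ≤ r → r ≤ ρ →
    ∀ I : Finset (Fin (N + 1) → ℤ),
    (∀ c ∈ I, ∃ z : Fin (N + 1) → ℝ, (∀ i, |z i - x0 i| ≤ ρ) ∧ (∀ i, ⌊z i / δ⌋ = c i) ∧
      ∃ k i, eval z (pderiv i (q k)) ≠ 0 ∧ |eval z (q k)| ≤ r * |eval z (pderiv i (q k))|) →
    (I.card : ℝ) ≤ J * (C * ((ρ / δ) ^ N * (1 + r / δ))) := by
  classical
  obtain ⟨C, hC0, hC⟩ := count N D
  refine ⟨C, hC0, ?_⟩
  intro J q hq x0 ρ r δ hδ hδρ hr hrρ I hI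
  set P : Fin J → (Fin (N + 1) → ℤ) → Prop := fun k c => ∃ z : Fin (N + 1) → ℝ,
    (∀ i, |z i - x0 i| ≤ ρ) ∧ (∀ i, ⌊z i / δ⌋ = c i) ∧
      ∃ i, eval z (pderiv i (q k)) ≠ 0 ∧ |eval z (q k)| ≤ r * |eval z (pderiv i (q k))| with hP
  have h1 : I ⊆ Finset.univ.biUnion fun k : Fin J => I.filter (P k) := by
    intro c hc
    obtain ⟨z, hz1, hz2, k, i, hz3, hz4⟩ := hI c hc
    rw [Finset.mem_biUnion]
    exact ⟨k, Finset.mem_univ k, Finset.mem_filter.2 ⟨hc, z, hz1, hz2, i, hz3, hz4⟩⟩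
  have h2 : (I.card : ℝ) ≤ ∑ k : Fin J, ((I.filter (P k)).card : ℝ) := by
    have := (Finset.card_le_card h1).trans Finset.card_biUnion_le
    exact_mod_cast this
  refine h2.trans ?_
  have h3 : ∀ k : Fin J, ((I.filter (P k)).card : ℝ) ≤ C * ((ρ / δ) ^ N * (1 + r / δ)) := by
    intro k
    exact hC (q k) (hq k) x0 ρ r δ hδ hδρ hr hrρ _ fun c hc => (Finset.mem_filter.1 hc).2
  calc ∑ k : Fin J, ((I.filter (P k)).card : ℝ) ≤ ∑ _k : Fin J, C * ((ρ / δ) ^ N * (1 + r / δ)) :=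
        Finset.sum_le_sum fun k _ => h3 k
    _ = J * (C * ((ρ / δ) ^ N * (1 + r / δ))) := by
        rw [Finset.sum_const, Finset.card_univ, Fintype.card_fin, nsmul_eq_mul]

end Pool.Agent.Helper80.LF
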