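import Pool.Agent.Helper59.EN.End
import Pool.Agent.Helper80.LF.Leaf

/-! END for families of polynomials which are small with respect to their gradients. -/

set_option autoImplicit false

namespace Pool.Agent.Helper80.LF

open Finset Filter Topology Pool.Agent.Helper69.RK Pool.Agent.Helper31.EC MvPolynomial

noncomputable section

/-- the point `(t, a + t x)` -/
def pp {S : Sp} {m : ℕ} (a x : S.VV m) (t : S.VV 1) (k : ℕ) (ω : (S.F k).Ω) : Fin (m + 1) → ℝ :=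
  Fin.cons (t.v k ω 0) (fun i => a.v k ω i + t.v k ω 0 * x.v k ω i)

/-- END: `J` polynomials of degree `≤ D` known to the base; typically one of them is bounded and has
gradient at least `2 ^ (s n - o(n))` at the point `(t, a + t x)`; then `h(x_s) ≤ (m - 1) s` -/
theorem END_leaf {S : Sp} {m J D : ℕ} (hm : 1 ≤ m) (a x : S.VV m) (t : S.VV 1) (s c : ℝ) (hc : 0 ≤ c)
    (hcs : c < s) (q : ∀ k, (S.F k).Ω → Fin J → MvPolynomial (Fin (m + 1)) ℝ)
    (hD : ∀ k ω j, (q k ω j).totalDegree ≤ D)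
    (E : ∀ k, (S.F k).Ω → Prop) (hE : Sp.Typ E) (K : ℕ → ℝ) (hK : S.Sub K)
    (hqZ : ∀ᶠ k in UF, ∀ ω ω', (S.F k).μ ω ≠ 0 → (S.F k).μ ω' ≠ 0 → E k ω → E k ω' →
      (S.F k).Z ω ω' → q k ω = q k ω')
    (hb : ∀ᶠ k in UF, ∀ ω, (S.F k).μ ω ≠ 0 → E k ω → ∃ j i, |eval (pp a x t k ω) (q k ω j)| ≤ K k ∧
      (2 : ℝ) ^ (s * (S.F k).n) ≤ K k * |eval (pp a x t k ω) (pderiv i (q k ω j))|)
    (hw : ∀ᶠ k in UF, ∀ ω ω', (S.F k).μ ω ≠ 0 → (S.F k).μ ω' ≠ 0 → E k ω → E k ω' →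
      (S.F k).Z ω ω' → |t.v k ω 0 - t.v k ω' 0| ≤ K k * S.dl c k)
    (ht : s - c ≤ h (t.dg s) (a.dg s ⊔ x.dg s)) :
    H (x.dg s) ≤ ((m : ℝ) - 1) * s + (2 * m + 2) * c := by
  have hK2 : S.Sub (fun k => K k + 6 ^ D * (K k * K k)) :=
    hK.add ((S.Sub_const (by positivity : (0 : ℝ) ≤ 6 ^ D)).mul (hK.mul hK))
  refine Pool.Agent.Helper59.EN.END hm a x t s c hc hcs (J * ((m + 1) * ((D + 1) * D)))
    (fun k ω => ∏ j, FF D (q k ω j)) E hE _ hK2 ?_ ?_ ?_ ?_ ht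
  · refine Eventually.of_forall fun k ω _ _ => ⟨Finset.prod_ne_zero_iff.2 fun j _ => FF_ne D _, ?_⟩
    refine (totalDegree_finsetProd _ _).trans ?_
    refine (Finset.sum_le_card_nsmul _ _ _ fun j _ => FF_deg D _ (hD k ω j)).trans ?_
    simp
  · filter_upwards [hqZ] with k hk ω ω' h1 h2 h3 h4 h5
    rw [hk ω ω' h1 h2 h3 h4 h5]
  · filter_upwards [hb, hK.1] with k hk hK0 ω h1 h2
    obtain ⟨j, i, b1, b2⟩ := hk ω h1 h2
    have hp : (0 : ℝ) < 2 ^ (s * (S.F k).n) := by positivity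
    have hdl : S.dl s k * 2 ^ (s * (S.F k).n) = 1 := by
      unfold Sp.dl
      rw [← Real.rpow_add (by norm_num : (0 : ℝ) < 2), neg_add_cancel, Real.rpow_zero]
    have hdl0 := S.dl_pos s k
    have hne : eval (pp a x t k ω) (pderiv i (q k ω j)) ≠ 0 := by
      intro h0
      rw [h0, abs_zero, mul_zero] at b2
      linarith
    obtain ⟨z, hz, hz2⟩ := near_zero D (q k ω j) (hD k ω j) (pp a x t k ω) i
      (K k * K k * S.dl s k) (by positivity) hne (by
        have e1 : (1 : ℝ) ≤ S.dl s k * (K k * |eval (pp a x t k ω) (pderiv i (q k ω j))|) := by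
          rw [← hdl]
          exact mul_le_mul_of_nonneg_left b2 hdl0.le
        calc |eval (pp a x t k ω) (q k ω j)| ≤ K k * 1 := by rw [mul_one]; exact b1
          _ ≤ K k * (S.dl s k * (K k * |eval (pp a x t k ω) (pderiv i (q k ω j))|)) :=
            mul_le_mul_of_nonneg_left e1 hK0
          _ = K k * K k * S.dl s k * |eval (pp a x t k ω) (pderiv i (q k ω j))| := by ring)
    have e3 : 6 ^ D * (K k * K k * S.dl s k) ≤ (K k + 6 ^ D * (K k * K k)) * S.dl s k := by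
      nlinarith [mul_nonneg hK0 hdl0.le]
    refine ⟨z, ?_, ?_, fun l => ?_⟩
    · rw [map_prod]
      exact Finset.prod_eq_zero (Finset.mem_univ j) hz
    · exact (hz2 0).trans e3
    · exact (hz2 l.succ).trans e3
  · filter_upwards [hw, hK.1] with k hk hK0 ω ω' h1 h2 h3 h4 h5
    refine (hk ω ω' h1 h2 h3 h4 h5).trans (mul_le_mul_of_nonneg_right ?_ (S.dl_pos c k).le)
    have : 0 ≤ 6 ^ D * (K k * K k) := by positivity
    linarith

end

end Pool.Agent.Helper80.LF
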