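import Pool.Agent.Helper31.EC.Chg
import Pool.Agent.Helper80.LF.Count

/-! Counting cells bounds entropy (exact calculus). -/

set_option autoImplicit false

namespace Pool.Agent.Helper80.LF

open Finset Filter Topology Pool.Agent.Helper69.RK Pool.Agent.Helper31.EC

noncomputable section

open Classical in
/-- finite form: outside the event `E` every atom of `B` contains at most `N` values of `X`, and on `E`
the variable varies by at most `M` on the atoms -/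
theorem e_count_event (F : FSp) {m : ℕ} (X : F.Ω → Fin m → ℤ) (B : Setoid F.Ω) (E : F.Ω → Prop) (N M : ℝ)
    (hN : 1 ≤ N) (hM : 0 ≤ M)
    (h : ∀ ω, F.μ ω ≠ 0 → ¬ E ω → ∃ I : Finset (Fin m → ℤ), (I.card : ℝ) ≤ N ∧
      ∀ ω', F.μ ω' ≠ 0 → ¬ E ω' → B ω' ω → X ω' ∈ I)
    (h' : ∀ ω ω', F.μ ω ≠ 0 → F.μ ω' ≠ 0 → E ω → E ω' → B ω ω' → ∀ i, |(X ω i : ℝ) - X ω' i| ≤ M) :
    F.e (Setoid.ker X) B ≤
      Real.logb 2 N + m * Real.logb 2 (M + 1) * mass (res F.μ E) + 1 := by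
  have hE4 := st_E4 st_E1 st_E3
  have h0 : F.e (Setoid.ker X) B = CH F.μ X (Quotient.mk B) := by
    apply F.e_congr
    · intro ω ω' _ _
      exact Iff.rfl
    · intro ω ω' _ _
      exact Quotient.eq.symm
  rw [h0]
  have h1 := (hE4.2.1 F.Ω _ _ F.μ X (Quotient.mk B) E F.nn).2
  rw [F.ms] at h1
  obtain ⟨h2, h3, h4⟩ := hE4.2.2 F.Ω F.μ E F.nn
  obtain ⟨_, h3', h4'⟩ := hE4.2.2 F.Ω F.μ (fun ω => ¬ E ω) F.nn
  rw [F.ms] at h2
  have r1 : ∀ (D : F.Ω → Prop) (ω : F.Ω), res F.μ D ω ≠ 0 → F.μ ω ≠ 0 ∧ D ω := by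
    intro D ω a
    by_cases hD : D ω
    · refine ⟨?_, hD⟩
      unfold res at a
      rwa [if_pos hD] at a
    · exfalso
      apply a
      unfold res
      rw [if_neg hD]
  have h5 := st_E3.2 F.Ω _ m (res F.μ E) X (Quotient.mk B) M h4 hM
    (fun ω ω' a b c => h' ω ω' (r1 E ω a).1 (r1 E ω' b).1 (r1 E ω a).2 (r1 E ω' b).2 (Quotient.exact c))
  have h6 := st_E3.1 F.Ω _ _ (res F.μ (fun ω => ¬ E ω)) X (Quotient.mk B) (fun _ => N) h4' (by
    intro ω hω
    obtain ⟨a, b⟩ := r1 _ ω hω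
    obtain ⟨I, hI, hI2⟩ := h ω a b
    refine le_trans ?_ hI
    norm_cast
    apply Finset.card_le_card
    intro x hx
    obtain ⟨ω', hω', rfl⟩ := (@Finset.mem_image _ _ (fun a b => Classical.propDecidable (a = b)) _ _ _).1 hx
    rw [Finset.mem_filter] at hω'
    obtain ⟨c1, c2⟩ := r1 _ ω' hω'.2.1
    exact hI2 ω' c1 c2 (Quotient.exact hω'.2.2))
  have h7 : mass (res F.μ (fun ω => ¬ E ω)) ≤ 1 := by linarith
  have h8 : 0 ≤ Real.logb 2 N := Real.logb_nonneg (by norm_num) hN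
  have h9 : ∑ ω, res F.μ (fun ω => ¬ E ω) ω * Real.logb 2 N ≤ Real.logb 2 N := by
    rw [← Finset.sum_mul]
    have : ∑ ω, res F.μ (fun ω => ¬ E ω) ω = mass (res F.μ (fun ω => ¬ E ω)) := rfl
    rw [this]
    nlinarith
  linarith

variable {S : Sp}

open Classical in
/-- COUNTING, limit form: at most `2 ^ (c n + o(n))` cells of resolution `r` in every atom of `B` -/
theorem ul_rt_count_le {m : ℕ} (y : S.VV m) (r c : ℝ) (B : ∀ k, Setoid (S.F k).Ω)
    (E : ∀ k, (S.F k).Ω → Prop) (hE : Sp.Typ E) (K : ℕ → ℝ) (hK : S.Sub K) (hc : 0 ≤ c)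
    (h : ∀ᶠ k in UF, ∀ ω, (S.F k).μ ω ≠ 0 → E k ω → ∃ I : Finset (Fin m → ℤ),
      (I.card : ℝ) ≤ K k * 2 ^ (c * (S.F k).n) ∧
      ∀ ω', (S.F k).μ ω' ≠ 0 → E k ω' → B k ω' ω → (S.F k).Z ω' ω → y.cellv r k ω' ∈ I) :
    ∃ f : ℕ → ℝ, Tendsto f UF (𝓝 c) ∧ ∀ᶠ k in UF, S.rt (fun k => Setoid.ker (y.cellv r k)) B k ≤ f k := by
  obtain ⟨C, hCs, hC⟩ := y.bd
  obtain ⟨hK0, hK1⟩ := hK
  have hCs' : S.Sub (fun k => 4 * (C k + 1)) :=
    (S.Sub_const (show (0 : ℝ) ≤ 4 by norm_num)).mul (hCs.add (S.Sub_const zero_le_one))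
  refine ⟨fun k => (Real.logb 2 (K k + 2) / (S.F k).n + c) +
      (m * (Real.logb 2 (4 * (C k + 1) + 2) / (S.F k).n + max r 0)) * mass (res (S.F k).μ (fun ω => ¬ E k ω))
      + 1 / (S.F k).n, ?_, ?_⟩
  · have t1 := hK1.add_const c
    have t2 := ((hCs'.2.add_const (max r 0)).const_mul (m : ℝ)).mul hE
    have t4 := S.div_n_tendsto 1
    have t5 := (t1.add t2).add t4
    simpa using t5
  · filter_upwards [hC, hK0, h, hCs.1] with k hCk hKk hk hC0
    have hn := (S.F k).pos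
    have hd := S.dl_pos r k
    have hp : (1 : ℝ) ≤ 2 ^ (c * (S.F k).n) := Real.one_le_rpow (by norm_num) (by positivity)
    have h1 := e_count_event (S.F k) (y.cellv r k) (B k ⊓ (S.F k).Z) (fun ω => ¬ E k ω)
      ((K k + 2) * 2 ^ (c * (S.F k).n)) (2 * (C k + 1) / S.dl r k + 1) (by nlinarith)
      (by positivity)
      (by
        intro ω a b
        obtain ⟨I, hI, hI2⟩ := hk ω a (not_not.1 b)
        refine ⟨I, hI.trans (by nlinarith), fun ω' a' b' c' => ?_⟩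
        exact hI2 ω' a' (not_not.1 b') c'.1 c'.2)
      (by
        intro ω ω' a b _ _ _ i
        have e1 : |y.v k ω i - y.v k ω' i| ≤ (2 * (C k + 1) / S.dl r k) * S.dl r k := by
          rw [div_mul_cancel₀ _ hd.ne']
          have h3 := abs_le.mp (hCk ω a i)
          have h4 := abs_le.mp (hCk ω' b i)
          rw [abs_le]
          constructor <;> linarith [h3.1, h3.2, h4.1, h4.2]
        exact Sp.floor_diff hd e1)
    have h2 : Real.logb 2 (2 * (C k + 1) / S.dl r k + 1 + 1) ≤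
        Real.logb 2 (4 * (C k + 1) + 2) + max r 0 * (S.F k).n := by
      have e1 : (1 : ℝ) ≤ 2 ^ (max r 0 * (S.F k).n) := by
        apply Real.one_le_rpow (by norm_num)
        positivity
      have e2 := Sp.one_div_dl_le S r k
      have e3 : 2 * (C k + 1) / S.dl r k + 1 + 1 ≤ (4 * (C k + 1) + 2) * 2 ^ (max r 0 * (S.F k).n) := by
        have e4 : 2 * (C k + 1) / S.dl r k = 2 * (C k + 1) * (1 / S.dl r k) := by ring
        rw [e4]
        nlinarith
      calc Real.logb 2 (2 * (C k + 1) / S.dl r k + 1 + 1)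
          ≤ Real.logb 2 ((4 * (C k + 1) + 2) * 2 ^ (max r 0 * (S.F k).n)) :=
            Real.logb_le_logb_of_le (by norm_num) (by positivity) e3
        _ = Real.logb 2 (4 * (C k + 1) + 2) + max r 0 * (S.F k).n := by
            rw [Real.logb_mul (by positivity) (by positivity), Real.logb_rpow (by norm_num) (by norm_num)]
    have h3 : Real.logb 2 ((K k + 2) * 2 ^ (c * (S.F k).n)) = Real.logb 2 (K k + 2) + c * (S.F k).n := by
      rw [Real.logb_mul (by positivity) (by positivity), Real.logb_rpow (by norm_num) (by norm_num)]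
    rw [h3] at h1
    have hmass := Sp.mass_res_nonneg (S := S) k (fun ω => ¬ E k ω)
    have h4 : m * Real.logb 2 (2 * (C k + 1) / S.dl r k + 1 + 1) * mass (res (S.F k).μ (fun ω => ¬ E k ω)) ≤
        m * (Real.logb 2 (4 * (C k + 1) + 2) + max r 0 * (S.F k).n) *
          mass (res (S.F k).μ (fun ω => ¬ E k ω)) :=
      mul_le_mul_of_nonneg_right (mul_le_mul_of_nonneg_left h2 (Nat.cast_nonneg m)) hmass
    have h5 : S.rt (fun k => Setoid.ker (y.cellv r k)) B k =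
        (S.F k).e (Setoid.ker (y.cellv r k)) (B k ⊓ (S.F k).Z) / (S.F k).n := rfl
    rw [h5, div_le_iff₀ hn]
    have h6 : ((Real.logb 2 (K k + 2) / (S.F k).n + c) +
      (m * (Real.logb 2 (4 * (C k + 1) + 2) / (S.F k).n + max r 0)) * mass (res (S.F k).μ (fun ω => ¬ E k ω))
      + 1 / (S.F k).n) * (S.F k).n = (Real.logb 2 (K k + 2) + c * (S.F k).n) +
      (m * (Real.logb 2 (4 * (C k + 1) + 2) + max r 0 * (S.F k).n)) *
        mass (res (S.F k).μ (fun ω => ¬ E k ω)) + 1 := by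
      field_simp
    rw [h6]
    linarith

open Classical in
/-- COUNTING: at most `2 ^ (c n + o(n))` cells of resolution `r` in every atom of `A` -/
theorem h_dg_count_le {m : ℕ} (y : S.VV m) (r c : ℝ) (A : S.Inf)
    (E : ∀ k, (S.F k).Ω → Prop) (hE : Sp.Typ E) (K : ℕ → ℝ) (hK : S.Sub K) (hc : 0 ≤ c)
    (hI : ∀ᶠ k in UF, ∀ ω, (S.F k).μ ω ≠ 0 → E k ω → ∃ I : Finset (Fin m → ℤ),
      (I.card : ℝ) ≤ K k * 2 ^ (c * (S.F k).n) ∧
      ∀ ω', (S.F k).μ ω' ≠ 0 → E k ω' → A.1 k ω' ω → (S.F k).Z ω' ω → y.cellv r k ω' ∈ I) :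
    h (y.dg r) (Sp.cl A) ≤ c := by
  obtain ⟨f, hf, hf1⟩ := ul_rt_count_le y r c A.1 E hE K hK hc hI
  unfold Sp.VV.dg
  rw [Sp.io_eq (y.bdd r), Sp.h_cl]
  rw [← ul_eq hf]
  exact ul_mono (Sp.UB_rt _ _) (UB_of_tendsto hf) hf1

end

end Pool.Agent.Helper80.LF
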