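import Mathlib

/-! Real zeros of a polynomial which is small with respect to its derivative. -/

set_option autoImplicit false

namespace Pool.Agent.Helper80.LF

open Polynomial Set

theorem pos_of_ne {f : ℝ → ℝ} (hf : Continuous f) {a : ℝ} (h0 : 0 < f 0)
    (h : ∀ z ∈ Icc (0 : ℝ) a, f z ≠ 0) : ∀ z ∈ Icc (0 : ℝ) a, 0 < f z := by
  intro z hz
  by_contra hneg
  have h1 : f z ≤ 0 := not_lt.1 hneg
  obtain ⟨c, hc, hc0⟩ := intermediate_value_Icc' hz.1 hf.continuousOn ⟨h1, h0.le⟩
  exact h c ⟨hc.1, hc.2.trans hz.2⟩ hc0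

/-- the normalised case -/
theorem realzero_aux (e : ℕ)
    (ih : ∀ (p : ℝ[X]), p.natDegree ≤ e → ∀ (y r : ℝ), 0 ≤ r → p.derivative.eval y ≠ 0 →
      |p.eval y| ≤ r * |p.derivative.eval y| →
      ∃ j < e, ∃ z, |z - y| ≤ 6 ^ e * r ∧ (derivative^[j] p).eval z = 0)
    (q : ℝ[X]) (hq : q.natDegree ≤ e + 1) (r : ℝ) (hr : 0 < r) (h0 : 0 < q.eval 0)
    (h1 : q.derivative.eval 0 < 0) (h2 : q.eval 0 ≤ r * -(q.derivative.eval 0)) :
    ∃ j < e + 1, ∃ z, |z| ≤ 6 ^ (e + 1) * r ∧ (derivative^[j] q).eval z = 0 := by
  have h6 : (1 : ℝ) ≤ 6 ^ e := one_le_pow₀ (by norm_num)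
  have h6' : (6 : ℝ) ^ (e + 1) = 6 * 6 ^ e := by ring
  by_cases c1 : ∃ z ∈ Icc (0 : ℝ) (2 * r), q.eval z = 0
  · obtain ⟨z, hz, hz0⟩ := c1
    refine ⟨0, Nat.succ_pos e, z, ?_, hz0⟩
    rw [abs_of_nonneg hz.1, h6']
    nlinarith [hz.2]
  · have d1 : ∀ z ∈ Icc (0 : ℝ) (2 * r), 0 < q.eval z :=
      pos_of_ne q.continuous h0 fun z hz h => c1 ⟨z, hz, h⟩
    by_cases c2 : ∃ z ∈ Icc (0 : ℝ) (2 * r), q.derivative.eval z = 0
    · obtain ⟨z, hz, hz0⟩ := c2
      rcases Nat.eq_zero_or_pos e with he | he
      · exfalso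
        subst he
        have h3 : q.derivative.natDegree = 0 := by
          have := Polynomial.natDegree_derivative_le q
          omega
        rw [Polynomial.eq_C_of_natDegree_eq_zero h3] at hz0 h1
        simp only [eval_C] at hz0 h1
        rw [hz0] at h1
        exact lt_irrefl _ h1
      · refine ⟨1, by omega, z, ?_, hz0⟩
        rw [abs_of_nonneg hz.1, h6']
        nlinarith [hz.2]
    · set h : ℝ[X] := -q.derivative with hh
      have hev : ∀ z, h.eval z = -(q.derivative.eval z) := fun z => by rw [hh, eval_neg]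
      have d2 : ∀ z ∈ Icc (0 : ℝ) (2 * r), 0 < h.eval z := by
        refine pos_of_ne h.continuous ?_ fun z hz h3 => c2 ⟨z, hz, ?_⟩
        · rw [hev]; linarith
        · rw [hev] at h3; linarith
      obtain ⟨ξ, hξ, hξ1⟩ := exists_deriv_eq_slope (fun z => q.eval z) (show (0 : ℝ) < 2 * r by linarith)
        q.continuous.continuousOn q.differentiable.differentiableOn
      have e1 : deriv (fun z => q.eval z) ξ = q.derivative.eval ξ := Polynomial.deriv q
      rw [e1, sub_zero] at hξ1
      have e2 : h.eval ξ < h.eval 0 / 2 := by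
        have a1 := d1 (2 * r) ⟨by linarith, le_rfl⟩
        have a2 : q.derivative.eval ξ * (2 * r) = q.eval (2 * r) - q.eval 0 := by
          rw [hξ1]
          field_simp
        rw [hev, hev]
        by_contra hcon
        have a3 : -(q.derivative.eval 0) / 2 ≤ -(q.derivative.eval ξ) := not_lt.1 hcon
        nlinarith
      -- logarithmic mean value
      have hξI : ∀ z ∈ Icc (0 : ℝ) ξ, 0 < h.eval z := fun z hz => d2 z ⟨hz.1, hz.2.trans hξ.2.le⟩
      obtain ⟨x0, hx0, hx1⟩ := exists_hasDerivAt_eq_slope (fun z => Real.log (h.eval z))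
        (fun z => h.derivative.eval z / h.eval z) hξ.1
        (ContinuousOn.log h.continuous.continuousOn fun z hz => (hξI z hz).ne')
        (fun z hz => (h.hasDerivAt z).log (hξI z ⟨hz.1.le, hz.2.le⟩).ne')
      have p0 : 0 < h.eval x0 := hξI x0 ⟨hx0.1.le, hx0.2.le⟩
      have pξ : 0 < h.eval ξ := hξI ξ ⟨hξ.1.le, le_rfl⟩
      have p00 : 0 < h.eval 0 := hξI 0 ⟨le_rfl, hξ.1.le⟩
      have l1 : Real.log (h.eval ξ) ≤ Real.log (h.eval 0) - Real.log 2 := by
        rw [← Real.log_div p00.ne' (by norm_num)]
        exact Real.log_le_log pξ e2.le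
      have l2 := Real.log_two_gt_d9
      have l3 : h.derivative.eval x0 / h.eval x0 * ξ ≤ - Real.log 2 := by
        rw [hx1, sub_zero, div_mul_cancel₀ _ hξ.1.ne']
        linarith
      have l4 : h.derivative.eval x0 * ξ ≤ - Real.log 2 * h.eval x0 := by
        have := mul_le_mul_of_nonneg_right l3 p0.le
        have e5 : h.derivative.eval x0 / h.eval x0 * ξ * h.eval x0 = h.derivative.eval x0 * ξ := by
          field_simp
        rwa [e5] at this
      have l5 : h.derivative.eval x0 < 0 := by
        by_contra hcon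
        have : 0 ≤ h.derivative.eval x0 := not_lt.1 hcon
        nlinarith [mul_nonneg this hξ.1.le, mul_pos (show (0 : ℝ) < Real.log 2 by linarith) p0]
      have l6 : h.eval x0 ≤ 3 * r * -(h.derivative.eval x0) := by
        have a1 : -(h.derivative.eval x0) * ξ ≤ -(h.derivative.eval x0) * (2 * r) :=
          mul_le_mul_of_nonneg_left hξ.2.le (by linarith)
        nlinarith [mul_le_mul_of_nonneg_right l2.le p0.le]
      have hd : h.natDegree ≤ e := by
        rw [hh, natDegree_neg]
        have := Polynomial.natDegree_derivative_le q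
        omega
      obtain ⟨j, hj, z, hz, hz0⟩ := ih h hd x0 (3 * r) (by linarith) l5.ne
        (by rw [abs_of_pos p0, abs_of_neg l5]; exact l6)
      refine ⟨j + 1, by omega, z, ?_, ?_⟩
      · have a1 : |z| ≤ |z - x0| + |x0| := by
          have := abs_add_le (z - x0) x0
          rwa [sub_add_cancel] at this
        have a2 : |x0| ≤ 2 * r := by
          rw [abs_of_nonneg hx0.1.le]
          linarith [hx0.2, hξ.2]
        rw [h6']
        nlinarith
      · have e6 : derivative^[j] h = - derivative^[j + 1] q := by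
          rw [hh, Function.iterate_succ_apply]
          exact Polynomial.iterate_derivative_neg
        rw [e6, eval_neg] at hz0
        linarith

/-- if `|p(y)| ≤ r |p'(y)|`, `p'(y) ≠ 0`, then some derivative of order less than the degree has a
real zero within `6 ^ e r` of `y` -/
theorem realzero : ∀ (e : ℕ) (p : ℝ[X]), p.natDegree ≤ e → ∀ (y r : ℝ), 0 ≤ r →
    p.derivative.eval y ≠ 0 → |p.eval y| ≤ r * |p.derivative.eval y| →
    ∃ j < e, ∃ z, |z - y| ≤ 6 ^ e * r ∧ (derivative^[j] p).eval z = 0 := by
  intro e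
  induction e with
  | zero =>
    intro p hp y r _ h1 _
    exfalso
    apply h1
    have h3 : p.natDegree = 0 := by omega
    rw [Polynomial.eq_C_of_natDegree_eq_zero h3]
    simp
  | succ e ih =>
    intro p hp y r hr h1 h2
    rcases (abs_nonneg (p.eval y)).eq_or_lt with h0 | h0
    · refine ⟨0, Nat.succ_pos e, y, ?_, ?_⟩
      · rw [sub_self, abs_zero]
        positivity
      · exact abs_eq_zero.1 h0.symm
    · have hr0 : 0 < r := by
        rcases hr.eq_or_lt with h | h
        · rw [← h, zero_mul] at h2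
          linarith
        · exact h
      -- signs
      obtain ⟨σ, hσ, hσ0⟩ : ∃ σ : ℝ, (σ = 1 ∨ σ = -1) ∧ 0 < σ * p.eval y := by
        rcases lt_or_gt_of_ne (abs_pos.1 h0) with h | h
        · exact ⟨-1, Or.inr rfl, by linarith⟩
        · exact ⟨1, Or.inl rfl, by linarith⟩
      obtain ⟨τ, hτ, hτ0⟩ : ∃ τ : ℝ, (τ = 1 ∨ τ = -1) ∧ σ * τ * p.derivative.eval y < 0 := by
        have hne : σ * p.derivative.eval y ≠ 0 := by
          refine mul_ne_zero ?_ h1
          rcases hσ with h | h <;> rw [h] <;> norm_num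
        rcases lt_or_gt_of_ne hne with h | h
        · exact ⟨1, Or.inl rfl, by linarith⟩
        · exact ⟨-1, Or.inr rfl, by linarith⟩
      set L : ℝ[X] := C τ * X + C y with hL
      have hLe : ∀ x, L.eval x = τ * x + y := fun x => by rw [hL]; simp
      have hLd : L.derivative = C τ := by rw [hL]; simp
      have hLdeg : L.natDegree ≤ 1 := by rw [hL]; exact natDegree_linear_le
      have hτne : τ ≠ 0 := by rcases hτ with h | h <;> rw [h] <;> norm_num
      have hσne : σ ≠ 0 := by rcases hσ with h | h <;> rw [h] <;> norm_num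
      have hτ1 : |τ| = 1 := by rcases hτ with h | h <;> rw [h] <;> norm_num
      have hσ1 : |σ| = 1 := by rcases hσ with h | h <;> rw [h] <;> norm_num
      set q : ℝ[X] := C σ * p.comp L with hq
      have hit : ∀ j : ℕ, derivative^[j] q = C (σ * τ ^ j) * (derivative^[j] p).comp L := by
        intro j
        induction j with
        | zero => simp [hq]
        | succ j hj =>
          rw [Function.iterate_succ_apply', hj, Function.iterate_succ_apply', derivative_mul,
            derivative_C, zero_mul, zero_add, derivative_comp, hLd]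
          rw [pow_succ]
          simp only [C_mul]
          ring
      have hqd : q.natDegree ≤ e + 1 := by
        refine (natDegree_C_mul_le _ _).trans ?_
        refine natDegree_comp_le.trans ?_
        calc p.natDegree * L.natDegree ≤ (e + 1) * 1 := Nat.mul_le_mul hp hLdeg
          _ = e + 1 := by ring
      have e0 : q.eval 0 = σ * p.eval y := by
        rw [hq, eval_mul, eval_C, eval_comp, hLe, mul_zero, zero_add]
      have e1 : q.derivative.eval 0 = σ * τ * p.derivative.eval y := by
        have := hit 1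
        simp only [Function.iterate_one, pow_one] at this
        rw [this, eval_mul, eval_C, eval_comp, hLe, mul_zero, zero_add]
      obtain ⟨j, hj, z, hz, hz0⟩ := realzero_aux e ih q hqd r hr0 (by rw [e0]; exact hσ0)
        (by rw [e1]; exact hτ0) (by
          have a1 : |q.eval 0| = |p.eval y| := by rw [e0, abs_mul, hσ1, one_mul]
          have a2 : |q.derivative.eval 0| = |p.derivative.eval y| := by
            rw [e1, abs_mul, abs_mul, hσ1, hτ1, one_mul, one_mul]
          rw [← a1, ← a2] at h2
          rw [abs_of_pos (by rw [e0]; exact hσ0), abs_of_neg (by rw [e1]; exact hτ0)] at h2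
          exact h2)
      refine ⟨j, hj, τ * z + y, ?_, ?_⟩
      · rw [add_sub_cancel_right, abs_mul, hτ1, one_mul]
        exact hz
      · rw [hit, eval_mul, eval_C, eval_comp, hLe] at hz0
        rcases mul_eq_zero.1 hz0 with h | h
        · exfalso
          exact (mul_ne_zero hσne (pow_ne_zero _ hτne)) h
        · exact h

end Pool.Agent.Helper80.LF
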